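import Pool.Agent.X116.RotC

/-!
# MP_c4c6a0_pr : the uniform shift model can be recurrent on a `d`-ary tree with `d ≥ 3`

Rotor walks, `Recurrent` and the uniform shift model `shiftModel` are defined in
`Pool.Agent.X116.RotA` and `Pool.Agent.X116.RotC` (see the claim file).
-/

namespace Pool.Agent.Results.MP_c4c6a0_pr.RecurrentShiftModel

open Pool.Agent.X116.Rot MeasureTheory

/-- every value `r ∈ {0,…,d}` is taken infinitely often on `{1,2,…}` -/
def NonDegenerate {d : ℕ} (a : ℕ → Fin (d + 1)) : Prop :=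
  ∀ r, {x : ℕ | 1 ≤ x ∧ a x = r}.Infinite

/-- `a (x + L) = a x` for all `x ∈ {1,2,…}` -/
def IsPeriodic {d : ℕ} (L : ℕ) (a : ℕ → Fin (d + 1)) : Prop :=
  ∀ x : ℕ, 1 ≤ x → a (x + L) = a x

/-- Q1 of the problem: for `d ≥ 3`, `L ≥ 1` and every non-degenerate `L`-periodic rotor sequence `a`
the rotor walk with `a_v = S^{k_v} a` is almost surely transient in the uniform shift model. -/
def Q1 : Prop :=
  ∀ d : ℕ, 3 ≤ d → ∀ (L : ℕ) [NeZero L] (a : ℕ → Fin (d + 1)), NonDegenerate a → IsPeriodic L a →
    ∀ᵐ k ∂(shiftModel d L), ¬ Recurrent (fun v x => a (x + k v))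

/-- There is a non-degenerate `24`-periodic rotor sequence on the ternary tree whose uniform shift
model is recurrent with probability one; so Q1 is false. -/
theorem result :
    (∃ a : ℕ → Fin (3 + 1), NonDegenerate a ∧ IsPeriodic 24 a ∧
      (∀ x, a x = if x % 24 = 1 then 1 else if x % 24 = 2 then 2 else if x % 24 = 3 then 3 else 0) ∧
      ∀ᵐ k ∂(shiftModel 3 24), Recurrent (fun v x => a (x + k v))) ∧ ¬ Q1 := by
  have hper : IsPeriodic (d := 3) 24 word := fun x _ => word_add x
  have hval : ∀ m x : ℕ, word (24 * m + x) = word x := by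
    intro m x
    unfold word
    rw [Nat.mul_add_mod]
  have hnd : NonDegenerate (d := 3) word := by
    intro r
    have hex : ∀ r : Fin (3 + 1), ∃ x ∈ Finset.Icc 1 24, word x = r := by decide
    obtain ⟨x, hx, hr⟩ := hex r
    rw [Finset.mem_Icc] at hx
    apply Set.infinite_of_injective_forall_mem (f := fun m : ℕ => 24 * m + x)
    · intro p q h
      have h' : 24 * p + x = 24 * q + x := h
      omega
    · intro m
      refine ⟨by omega, ?_⟩
      rw [hval]; exact hr
  refine ⟨⟨word, hnd, hper, fun x => rfl, ae_recurrent⟩, ?_⟩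
  intro hQ
  have h1 := hQ 3 le_rfl 24 word hnd hper
  have h2 := ae_recurrent
  have h3 : ∀ᵐ k ∂(shiftModel 3 24), False := by
    filter_upwards [h1, h2] with k hk1 hk2
    exact hk1 hk2
  rw [Filter.eventually_false_iff_eq_bot, ae_eq_bot] at h3
  have h4 : shiftModel 3 24 Set.univ = 1 := measure_univ
  rw [h3] at h4
  simp at h4

end Pool.Agent.Results.MP_c4c6a0_pr.RecurrentShiftModel
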